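import Pool.Agent.L5helper16.LG.Defs

set_option autoImplicit false

namespace Pool.Agent.L5helper41.LG

open Finset Pool.Agent.L5helper16.LG

theorem b2 : St_B2 := by
  refine ⟨fun Q => ?_, fun m => ?_, fun Q p hp hp0 m => ?_⟩
  · simp [ff]
  · have h := Int.alternating_sum_range_choose_of_ne (n := m + 1) (by omega)
    have h' : ((∑ j ∈ range (m + 1 + 1), ((-1) ^ j * ((m + 1).choose j : ℤ)) : ℤ) : ℝ) = 0 := by
      rw [h]; simp
    simp only [ff, prod_empty, mul_one]
    push_cast at h'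
    exact h'
  · have hp0' : (p : ℝ) ≠ 0 := Nat.cast_ne_zero.2 hp0
    have e2 : ff Q m = ∑ j ∈ range (m + 1 + 1), (-1) ^ j * (m.choose j : ℝ) *
        ∏ p ∈ Q, (1 - (j : ℝ) / p) := by
      rw [sum_range_succ, Nat.choose_succ_self]
      simp [ff]
    rw [e2]
    unfold ff
    rw [mul_sum, mul_sum, ← sum_add_distrib]
    refine sum_congr rfl fun j hj => ?_
    rw [prod_insert hp]
    have hj' : j ≤ m + 1 := by
      have := mem_range.1 hj
      omega
    have h1 : (m.choose j : ℝ) * ((m : ℝ) + 1) = ((m + 1).choose j : ℝ) * ((m : ℝ) + 1 - j) := by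
      have h2 := Nat.choose_mul_succ_eq m j
      have h3 : ((m.choose j * (m + 1) : ℕ) : ℝ) = (((m + 1).choose j * (m + 1 - j) : ℕ) : ℝ) := by
        rw [h2]
      rw [Nat.cast_mul, Nat.cast_mul, Nat.cast_sub hj'] at h3
      push_cast at h3
      exact h3
    set Pj := ∏ p ∈ Q, (1 - (j : ℝ) / p)
    have h4 : ((m : ℝ) + 1) / p * (m.choose j : ℝ) = ((m + 1).choose j : ℝ) * ((m : ℝ) + 1 - j) / p := by
      rw [div_mul_eq_mul_div, mul_comm, h1]
    linear_combination (-(-1 : ℝ) ^ j * Pj) * h4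

end Pool.Agent.L5helper41.LG
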